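import Mathlib

/-!
# Spheres are not multiplicative among all topological `Z₂`-spaces

A `Z₂`-space is a topological space with a continuous free involution. There are zero-dimensional
Hausdorff `Z₂`-spaces `X`, `Y` without a `Z₂`-map to any sphere, whose product has a `Z₂`-map to
every sphere (even to `S⁰`). In particular `S²` is not multiplicative.

For directed sets `D`, `E` let `B` be the space with points `d ∈ D`, `e ∈ E` and isolated points
`(d, e, k)`, `k = 0, 1`, where `(d, e, k)` tends to `d` if `e → ∞` (`d` fixed), and to `e` if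
`d → ∞` (`e` fixed). `Pt D E` is the double covering of `B` which is trivial over the points with
`k = 0` together with `D ∪ E`, and twisted along `E` for `k = 1`. A `Z₂`-map `f` from `Pt D E` to a
sphere gives functions `φ : D → E`, `ψ : E → D` such that `f d`, `f (d, e, k)`, `± f e` are close
for `e ≥ φ d`, `d ≥ ψ e`; if for all `φ`, `ψ` such a pair `(d, e)` exists, we get a contradiction.
This is so for `D = ω × ω₁`, `E = ω₂ × ω₃`, and for `D' = ω × ω₂`, `E' = ω₁ × ω₃`, by regularity.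
But `D` and `D'` have the common factor `ω`, `D` and `E'` the factor `ω₁`, `E` and `D'` the factor
`ω₂`, `E` and `E'` the factor `ω₃`. So each of `D`, `E` can be compared with each of `D'`, `E'`, and
the sign of the nearer one of the two points defines a `Z₂`-map from the product to `S⁰`.
-/

set_option autoImplicit false
set_option linter.unusedSectionVars false

namespace Pool.Agent.Results.MP_bd7361_gt.TwoSphereNotMultiplicative

open Set TopologicalSpace Cardinal

/-- a continuous free involution -/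
structure FreeInvolution {X : Type} [TopologicalSpace X] (ν : X → X) : Prop where
  continuous : Continuous ν
  involutive : ∀ x, ν (ν x) = x
  free : ∀ x, ν x ≠ x

/-- there is a continuous map `f` with `f ∘ ν = ζ ∘ f` -/
def Maps {X Z : Type} [TopologicalSpace X] [TopologicalSpace Z] (ν : X → X) (ζ : Z → Z) : Prop :=
  ∃ f : X → Z, Continuous f ∧ ∀ x, f (ν x) = ζ (f x)

/-- the `Z₂`-space `(Z, ζ)` is multiplicative -/
def Multiplicative {Z : Type} [TopologicalSpace Z] (ζ : Z → Z) : Prop :=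
  ∀ (X Y : Type) [TopologicalSpace X] [TopologicalSpace Y] (ν : X → X) (μ : Y → Y),
    FreeInvolution ν → FreeInvolution μ →
      Maps (Prod.map ν μ) ζ → Maps ν ζ ∨ Maps μ ζ

/-- the `n`-dimensional sphere -/
abbrev Sph (n : ℕ) : Type := Metric.sphere (0 : EuclideanSpace ℝ (Fin (n + 1))) 1

/-- the antipodal map of the `n`-dimensional sphere -/
noncomputable def antipode (n : ℕ) : Sph n → Sph n := fun x => -x

/-! ### The spaces -/

/-- points of the double plank -/
inductive Pt (D E : Type) : Type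
  | left (d : D) (s : Bool) : Pt D E
  | right (e : E) (s : Bool) : Pt D E
  | mid (d : D) (e : E) (k s : Bool) : Pt D E

open Pt

section space

variable {D E : Type} [SemilatticeSup D] [SemilatticeSup E] [Nonempty D] [Nonempty E]

instance topPt : TopologicalSpace (Pt D E) where
  IsOpen U := (∀ d s, left d s ∈ U → ∃ e₀, ∀ e, e₀ ≤ e → ∀ k, mid d e k s ∈ U) ∧
    (∀ e s, right e s ∈ U → ∃ d₀, ∀ d, d₀ ≤ d → ∀ k, mid d e k (xor s k) ∈ U)
  isOpen_univ := by
    constructor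
    · intro d s _
      exact ⟨Classical.arbitrary E, fun _ _ _ => trivial⟩
    · intro e s _
      exact ⟨Classical.arbitrary D, fun _ _ _ => trivial⟩
  isOpen_inter := by
    rintro U V ⟨hU1, hU2⟩ ⟨hV1, hV2⟩
    constructor
    · rintro d s ⟨h1, h2⟩
      obtain ⟨a, ha⟩ := hU1 d s h1
      obtain ⟨b, hb⟩ := hV1 d s h2
      exact ⟨a ⊔ b, fun e he k => ⟨ha e (le_sup_left.trans he) k, hb e (le_sup_right.trans he) k⟩⟩
    · rintro e s ⟨h1, h2⟩
      obtain ⟨a, ha⟩ := hU2 e s h1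
      obtain ⟨b, hb⟩ := hV2 e s h2
      exact ⟨a ⊔ b, fun d he k => ⟨ha d (le_sup_left.trans he) k, hb d (le_sup_right.trans he) k⟩⟩
  isOpen_sUnion := by
    intro S hS
    constructor
    · rintro d s ⟨U, hU, h⟩
      obtain ⟨a, ha⟩ := (hS U hU).1 d s h
      exact ⟨a, fun e he k => ⟨U, hU, ha e he k⟩⟩
    · rintro e s ⟨U, hU, h⟩
      obtain ⟨a, ha⟩ := (hS U hU).2 e s h
      exact ⟨a, fun d he k => ⟨U, hU, ha d he k⟩⟩

theorem isOpen_pt {U : Set (Pt D E)} : IsOpen U ↔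
    (∀ d s, left d s ∈ U → ∃ e₀, ∀ e, e₀ ≤ e → ∀ k, mid d e k s ∈ U) ∧
    (∀ e s, right e s ∈ U → ∃ d₀, ∀ d, d₀ ≤ d → ∀ k, mid d e k (xor s k) ∈ U) := Iff.rfl

/-- the involution -/
def inv : Pt D E → Pt D E
  | left d s => left d (!s)
  | right e s => right e (!s)
  | mid d e k s => mid d e k (!s)

theorem freeInvolution_inv : FreeInvolution (inv : Pt D E → Pt D E) where
  continuous := by
    rw [continuous_def]
    intro U hU
    rw [isOpen_pt] at hU ⊢
    constructor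
    · intro d s h
      obtain ⟨a, ha⟩ := hU.1 d (!s) h
      exact ⟨a, fun e he k => ha e he k⟩
    · intro e s h
      obtain ⟨a, ha⟩ := hU.2 e (!s) h
      refine ⟨a, fun d hd k => ?_⟩
      have := ha d hd k
      change mid d e k (!(xor s k)) ∈ U
      convert this using 2
      cases s <;> cases k <;> rfl
  involutive := by
    rintro (⟨d, s⟩ | ⟨e, s⟩ | ⟨d, e, k, s⟩) <;> simp [inv]
  free := by
    rintro (⟨d, s⟩ | ⟨e, s⟩ | ⟨d, e, k, s⟩) <;> simp [inv]

/-- basic neighbourhood of `left d s` -/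
def NL (d : D) (s : Bool) (e₀ : E) : Set (Pt D E) :=
  {x | match x with
    | left d' s' => d' = d ∧ s' = s
    | right _ _ => False
    | mid d' e _ s' => d' = d ∧ s' = s ∧ e₀ ≤ e}

/-- basic neighbourhood of `right e s` -/
def NR (e : E) (s : Bool) (d₀ : D) : Set (Pt D E) :=
  {x | match x with
    | left _ _ => False
    | right e' s' => e' = e ∧ s' = s
    | mid d e' k s' => e' = e ∧ s' = xor s k ∧ d₀ ≤ d}

theorem isOpen_NL (d : D) (s : Bool) (e₀ : E) : IsOpen (NL d s e₀ : Set (Pt D E)) := by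
  rw [isOpen_pt]
  constructor
  · rintro d' s' ⟨rfl, rfl⟩
    exact ⟨e₀, fun e he k => ⟨rfl, rfl, he⟩⟩
  · rintro e s' h
    exact h.elim

theorem isOpen_NR (e : E) (s : Bool) (d₀ : D) : IsOpen (NR e s d₀ : Set (Pt D E)) := by
  rw [isOpen_pt]
  constructor
  · rintro e s' h
    exact h.elim
  · rintro d' s' ⟨rfl, rfl⟩
    exact ⟨d₀, fun e he k => ⟨rfl, rfl, he⟩⟩

theorem isOpen_mid (d : D) (e : E) (k s : Bool) : IsOpen ({mid d e k s} : Set (Pt D E)) := by
  rw [isOpen_pt]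
  constructor
  · rintro d' s' h
    simp at h
  · rintro d' s' h
    simp at h

variable [NoTopOrder D] [NoTopOrder E]

theorem isClopen_NL (d : D) (s : Bool) (e₀ : E) : IsClopen (NL d s e₀ : Set (Pt D E)) := by
  refine ⟨⟨?_⟩, isOpen_NL d s e₀⟩
  rw [isOpen_pt]
  constructor
  · intro d' s' h
    refine ⟨e₀, fun e he k hm => h ?_⟩
    exact ⟨hm.1, hm.2.1⟩
  · intro e s' _
    obtain ⟨d₀, hd₀⟩ := exists_not_le d
    refine ⟨d₀, fun d' hd' k hm => hd₀ ?_⟩
    rw [← hm.1]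
    exact hd'

theorem isClopen_NR (e : E) (s : Bool) (d₀ : D) : IsClopen (NR e s d₀ : Set (Pt D E)) := by
  refine ⟨⟨?_⟩, isOpen_NR e s d₀⟩
  rw [isOpen_pt]
  constructor
  · intro d s' _
    obtain ⟨e₀, he₀⟩ := exists_not_le e
    refine ⟨e₀, fun e' he' k hm => he₀ ?_⟩
    rw [← hm.1]
    exact he'
  · intro e' s' h
    refine ⟨d₀, fun d hd k hm => h ?_⟩
    refine ⟨hm.1, ?_⟩
    have := hm.2.1
    revert this
    cases s' <;> cases s <;> cases k <;> simp

theorem isClopen_mid (d : D) (e : E) (k s : Bool) : IsClopen ({mid d e k s} : Set (Pt D E)) := by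
  refine ⟨⟨?_⟩, isOpen_mid d e k s⟩
  rw [isOpen_pt]
  constructor
  · intro d' s' _
    obtain ⟨e₀, he₀⟩ := exists_not_le e
    refine ⟨e₀, fun e' he' k' hm => he₀ ?_⟩
    simp only [mem_singleton_iff, mid.injEq] at hm
    rw [← hm.2.1]
    exact he'
  · intro e' s' _
    obtain ⟨d₀, hd₀⟩ := exists_not_le d
    refine ⟨d₀, fun d' hd' k' hm => hd₀ ?_⟩
    simp only [mem_singleton_iff, mid.injEq] at hm
    rw [← hm.1]
    exact hd'

theorem isTopologicalBasis_clopen : IsTopologicalBasis {s : Set (Pt D E) | IsClopen s} := by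
  apply isTopologicalBasis_of_isOpen_of_nhds
  · intro u hu
    exact hu.isOpen
  · intro x U hx hU
    rcases x with ⟨d, s⟩ | ⟨e, s⟩ | ⟨d, e, k, s⟩
    · obtain ⟨e₀, he₀⟩ := (isOpen_pt.1 hU).1 d s hx
      refine ⟨NL d s e₀, isClopen_NL d s e₀, ⟨rfl, rfl⟩, ?_⟩
      rintro (⟨d', s'⟩ | ⟨e', s'⟩ | ⟨d', e', k', s'⟩) h
      · obtain ⟨rfl, rfl⟩ := h
        exact hx
      · exact h.elim
      · obtain ⟨rfl, rfl, h⟩ := h
        exact he₀ e' h k'
    · obtain ⟨d₀, hd₀⟩ := (isOpen_pt.1 hU).2 e s hx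
      refine ⟨NR e s d₀, isClopen_NR e s d₀, ⟨rfl, rfl⟩, ?_⟩
      rintro (⟨d', s'⟩ | ⟨e', s'⟩ | ⟨d', e', k', s'⟩) h
      · exact h.elim
      · obtain ⟨rfl, rfl⟩ := h
        exact hx
      · obtain ⟨rfl, rfl, h⟩ := h
        exact hd₀ d' h k'
    · exact ⟨{mid d e k s}, isClopen_mid d e k s, rfl, by simpa using hx⟩

theorem isClosed_singleton_pt (x : Pt D E) : IsClosed ({x} : Set (Pt D E)) := by
  constructor
  rw [isOpen_pt]
  rcases x with ⟨d, s⟩ | ⟨e, s⟩ | ⟨d, e, k, s⟩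
  · exact ⟨fun d' s' _ => ⟨Classical.arbitrary E, fun e' _ k' => by simp⟩,
      fun d' s' _ => ⟨Classical.arbitrary D, fun e' _ k' => by simp⟩⟩
  · exact ⟨fun d' s' _ => ⟨Classical.arbitrary E, fun e' _ k' => by simp⟩,
      fun d' s' _ => ⟨Classical.arbitrary D, fun e' _ k' => by simp⟩⟩
  · exact isOpen_pt.1 (isClopen_mid d e k s).1.isOpen_compl

theorem t2 : T2Space (Pt D E) := by
  refine ⟨fun x y hxy => ?_⟩
  obtain ⟨V, hV, hxV, hVs⟩ := isTopologicalBasis_clopen.exists_subset_of_mem_open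
    (show x ∈ ({y} : Set (Pt D E))ᶜ from hxy) (isClosed_singleton_pt y).isOpen_compl
  exact ⟨V, Vᶜ, hV.isOpen, hV.compl.isOpen, hxV, fun h => hVs h rfl, disjoint_compl_right⟩

end space

/-! ### No equivariant map to a sphere -/

theorem no_map {D E : Type} [SemilatticeSup D] [SemilatticeSup E] [Nonempty D] [Nonempty E]
    (H : ∀ (φ : D → E) (ψ : E → D), ∃ d e, φ d ≤ e ∧ ψ e ≤ d) (n : ℕ) :
    ¬ Maps (inv : Pt D E → Pt D E) (antipode n) := by
  rintro ⟨f, hf, hodd⟩
  have key : ∀ x : Pt D E, IsOpen {y | dist (f y) (f x) < 1 / 2} := fun x =>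
    isOpen_lt (hf.dist continuous_const) continuous_const
  have h1 : ∀ d : D, ∃ e₀ : E, ∀ e, e₀ ≤ e → ∀ k,
      dist (f (mid d e k true)) (f (left d true)) < 1 / 2 := by
    intro d
    exact (isOpen_pt.1 (key (left d true))).1 d true (by simp)
  have h2 : ∀ e : E, ∃ d₀ : D, ∀ d, d₀ ≤ d → ∀ k,
      dist (f (mid d e k (xor true k))) (f (right e true)) < 1 / 2 := by
    intro e
    exact (isOpen_pt.1 (key (right e true))).2 e true (by simp)
  choose φ hφ using h1
  choose ψ hψ using h2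
  obtain ⟨d, e, hde, hed⟩ := H φ ψ
  have a1 := hφ d e hde false
  have a2 := hφ d e hde true
  have a3 := hψ e d hed false
  have a4 := hψ e d hed true
  simp only [Bool.xor_false, Bool.xor_true, Bool.not_true] at a3 a4
  have a5 : f (mid d e true true) = -f (mid d e true false) := hodd (mid d e true false)
  have a6 : dist (f (mid d e true true)) (-f (right e true)) < 1 / 2 := by
    rw [a5]
    have : dist (-f (mid d e true false)) (-f (right e true)) =
        dist (f (mid d e true false)) (f (right e true)) := by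
      rw [Subtype.dist_eq, Subtype.dist_eq]

      exact dist_neg_neg _ _
    rw [this]
    exact a4
  have a7 : dist (f (right e true)) (-f (right e true)) < 2 := by
    calc dist (f (right e true)) (-f (right e true))
        ≤ dist (f (right e true)) (f (mid d e false true)) +
          dist (f (mid d e false true)) (f (left d true)) +
          dist (f (left d true)) (f (mid d e true true)) +
          dist (f (mid d e true true)) (-f (right e true)) := by
          have t1 := dist_triangle4 (f (right e true)) (f (mid d e false true)) (f (left d true))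
            (f (mid d e true true))
          have t2 := dist_triangle (f (right e true)) (f (mid d e true true)) (-f (right e true))
          linarith
      _ < 1 / 2 + 1 / 2 + 1 / 2 + 1 / 2 := by
          rw [dist_comm] at a3
          rw [dist_comm] at a2
          linarith
      _ = 2 := by norm_num
  have a8 : dist (f (right e true)) (-f (right e true)) = 2 := by
    rw [Subtype.dist_eq, dist_eq_norm]
    have hn : ‖((f (right e true) : Sph n) : EuclideanSpace ℝ (Fin (n + 1)))‖ = 1 := by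
      have := (f (right e true)).2
      simpa using this
    have : ((f (right e true) : Sph n) : EuclideanSpace ℝ (Fin (n + 1))) -
        ((-f (right e true) : Sph n) : EuclideanSpace ℝ (Fin (n + 1))) =
        (2 : ℝ) • ((f (right e true) : Sph n) : EuclideanSpace ℝ (Fin (n + 1))) := by
      rw [two_smul]
      simp
    rw [this, norm_smul, hn]
    norm_num
  linarith

/-! ### The product -/

/-- a Boolean relation between two directed sets: `r d e = true` means that `d` is near compared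
with `e` -/
structure Rank {D E : Type} [LE D] [LE E] (r : D → E → Bool) : Prop where
  far : ∀ e, ∃ d₀, ∀ d, d₀ ≤ d → r d e = false
  near : ∀ d, ∃ e₀, ∀ e, e₀ ≤ e → r d e = true

/-- the choice of one of four signs -/
def G (a11 a12 a21 a22 v1 v2 w1 w2 : Bool) : Bool :=
  if !a21 && !a22 then (if !a11 then w1 else if !a12 then w2 else v1)
  else if !a11 && !a12 then (if !a21 then w1 else if !a22 then w2 else v2)
  else if a12 && a22 then (if a11 then v1 else if a21 then v2 else w1)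
  else if a11 && a21 then (if a12 then v1 else if a22 then v2 else w2)
  else v1

section product

variable {D₁ D₂ E₁ E₂ : Type}

/-- the map from the product to the signs -/
def F (r11 : D₁ → E₁ → Bool) (r12 : D₁ → E₂ → Bool) (r21 : D₂ → E₁ → Bool) (r22 : D₂ → E₂ → Bool) :
    Pt D₁ D₂ → Pt E₁ E₂ → Bool
  | left d s, left e t => if r11 d e then s else t
  | left d s, right e t => if r12 d e then s else t
  | right d s, left e t => if r21 d e then s else t
  | right d s, right e t => if r22 d e then s else t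
  | left d s, mid e₁ e₂ l t =>
      if !r11 d e₁ then t else if !r12 d e₂ then xor t l else s
  | right d s, mid e₁ e₂ l t =>
      if !r21 d e₁ then t else if !r22 d e₂ then xor t l else s
  | mid d₁ d₂ k s, left e t =>
      if r11 d₁ e then s else if r21 d₂ e then xor s k else t
  | mid d₁ d₂ k s, right e t =>
      if r12 d₁ e then s else if r22 d₂ e then xor s k else t
  | mid d₁ d₂ k s, mid e₁ e₂ l t =>
      G (r11 d₁ e₁) (r12 d₁ e₂) (r21 d₂ e₁) (r22 d₂ e₂) s (xor s k) t (xor t l)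

variable {r11 : D₁ → E₁ → Bool} {r12 : D₁ → E₂ → Bool} {r21 : D₂ → E₁ → Bool} {r22 : D₂ → E₂ → Bool}

theorem G_not (a11 a12 a21 a22 v1 v2 w1 w2 : Bool) :
    G a11 a12 a21 a22 (!v1) (!v2) (!w1) (!w2) = !G a11 a12 a21 a22 v1 v2 w1 w2 := by
  unfold G
  split_ifs <;> rfl

theorem not_xor' (s k : Bool) : xor (!s) k = !(xor s k) := by
  cases s <;> cases k <;> rfl

theorem xor_xor' (s k : Bool) : xor (xor s k) k = s := by
  cases s <;> cases k <;> rfl

theorem F_inv (x : Pt D₁ D₂) (y : Pt E₁ E₂) :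
    F r11 r12 r21 r22 (inv x) (inv y) = !F r11 r12 r21 r22 x y := by
  rcases x with ⟨d, s⟩ | ⟨d, s⟩ | ⟨d₁, d₂, k, s⟩ <;> rcases y with ⟨e, t⟩ | ⟨e, t⟩ | ⟨e₁, e₂, l, t⟩
  all_goals
    simp only [inv, F, not_xor', G_not]
    try (split_ifs <;> rfl)

variable [SemilatticeSup D₁] [SemilatticeSup D₂] [Nonempty D₁] [Nonempty D₂]
  [SemilatticeSup E₁] [SemilatticeSup E₂] [Nonempty E₁] [Nonempty E₂]

theorem F_loc (h11 : Rank r11) (h12 : Rank r12) (h21 : Rank r21) (h22 : Rank r22)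
    (x : Pt D₁ D₂) (y : Pt E₁ E₂) :
    ∃ U : Set (Pt D₁ D₂), ∃ V : Set (Pt E₁ E₂), IsOpen U ∧ IsOpen V ∧ x ∈ U ∧ y ∈ V ∧
      ∀ x' ∈ U, ∀ y' ∈ V, F r11 r12 r21 r22 x' y' = F r11 r12 r21 r22 x y := by
  rcases x with ⟨d, s⟩ | ⟨d, s⟩ | ⟨d₁, d₂, k, s⟩ <;> rcases y with ⟨e, t⟩ | ⟨e, t⟩ | ⟨e₁, e₂, l, t⟩
  · obtain ⟨a, ha⟩ := h21.far e
    obtain ⟨b, hb⟩ := h12.near d
    refine ⟨NL d s a, NL e t b, isOpen_NL _ _ _, isOpen_NL _ _ _, ⟨rfl, rfl⟩, ⟨rfl, rfl⟩, ?_⟩
    rintro (⟨d', s'⟩ | ⟨d', s'⟩ | ⟨d', e', k', s'⟩) hx (⟨d'', s''⟩ | ⟨d'', s''⟩ | ⟨d'', e'', k'', s''⟩) hy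
    · obtain ⟨rfl, rfl⟩ := hx
      obtain ⟨rfl, rfl⟩ := hy
      rfl
    · exact hy.elim
    · obtain ⟨rfl, rfl⟩ := hx
      obtain ⟨rfl, rfl, hy⟩ := hy
      have := hb _ hy
      cases h : r11 d' d'' <;> simp [F, G, h, this]
    · exact hx.elim
    · exact hx.elim
    · exact hx.elim
    · obtain ⟨rfl, rfl, hx⟩ := hx
      obtain ⟨rfl, rfl⟩ := hy
      have := ha _ hx
      cases h : r11 d' d'' <;> simp [F, G, h, this]
    · exact hy.elim
    · obtain ⟨rfl, rfl, hx⟩ := hx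
      obtain ⟨rfl, rfl, hy⟩ := hy
      have h1 := ha _ hx
      have h2 := hb _ hy
      cases h : r11 d' d'' <;> cases h' : r22 e' e'' <;> simp [F, G, h, h', h1, h2]
  · obtain ⟨a, ha⟩ := h22.far e
    obtain ⟨b, hb⟩ := h11.near d
    refine ⟨NL d s a, NR e t b, isOpen_NL _ _ _, isOpen_NR _ _ _, ⟨rfl, rfl⟩, ⟨rfl, rfl⟩, ?_⟩
    rintro (⟨d', s'⟩ | ⟨d', s'⟩ | ⟨d', e', k', s'⟩) hx (⟨d'', s''⟩ | ⟨d'', s''⟩ | ⟨d'', e'', k'', s''⟩) hy
    · exact hy.elim
    · obtain ⟨rfl, rfl⟩ := hx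
      obtain ⟨rfl, rfl⟩ := hy
      rfl
    · obtain ⟨rfl, rfl⟩ := hx
      obtain ⟨rfl, rfl, hy⟩ := hy
      have := hb _ hy
      cases h : r12 d' e'' <;> simp [F, G, h, this, xor_xor']
    · exact hx.elim
    · exact hx.elim
    · exact hx.elim
    · exact hy.elim
    · obtain ⟨rfl, rfl, hx⟩ := hx
      obtain ⟨rfl, rfl⟩ := hy
      have := ha _ hx
      cases h : r12 d' d'' <;> simp [F, G, h, this]
    · obtain ⟨rfl, rfl, hx⟩ := hx
      obtain ⟨rfl, rfl, hy⟩ := hy
      have h1 := ha _ hx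
      have h2 := hb _ hy
      cases h : r12 d' e'' <;> cases h' : r21 e' d'' <;> simp [F, G, h, h', h1, h2, xor_xor']
  · obtain ⟨a, ha⟩ := h21.far e₁
    obtain ⟨b, hb⟩ := h22.far e₂
    refine ⟨NL d s (a ⊔ b), {mid e₁ e₂ l t}, isOpen_NL _ _ _, isOpen_mid _ _ _ _, ⟨rfl, rfl⟩, rfl, ?_⟩
    rintro (⟨d', s'⟩ | ⟨d', s'⟩ | ⟨d', e', k', s'⟩) hx y rfl
    · obtain ⟨rfl, rfl⟩ := hx
      rfl
    · exact hx.elim
    · obtain ⟨rfl, rfl, hx⟩ := hx
      have h1 := ha _ (le_sup_left.trans hx)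
      have h2 := hb _ (le_sup_right.trans hx)
      cases h : r11 d' e₁ <;> cases h' : r12 d' e₂ <;> simp [F, G, h, h', h1, h2]
  · obtain ⟨a, ha⟩ := h11.far e
    obtain ⟨b, hb⟩ := h22.near d
    refine ⟨NR d s a, NL e t b, isOpen_NR _ _ _, isOpen_NL _ _ _, ⟨rfl, rfl⟩, ⟨rfl, rfl⟩, ?_⟩
    rintro (⟨d', s'⟩ | ⟨d', s'⟩ | ⟨d', e', k', s'⟩) hx (⟨d'', s''⟩ | ⟨d'', s''⟩ | ⟨d'', e'', k'', s''⟩) hy
    · exact hx.elim
    · exact hx.elim
    · exact hx.elim
    · obtain ⟨rfl, rfl⟩ := hx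
      obtain ⟨rfl, rfl⟩ := hy
      rfl
    · exact hy.elim
    · obtain ⟨rfl, rfl⟩ := hx
      obtain ⟨rfl, rfl, hy⟩ := hy
      have := hb _ hy
      cases h : r21 d' d'' <;> simp [F, G, h, this]
    · obtain ⟨rfl, rfl, hx⟩ := hx
      obtain ⟨rfl, rfl⟩ := hy
      have := ha _ hx
      cases h : r21 e' d'' <;> simp [F, G, h, this, xor_xor']
    · exact hy.elim
    · obtain ⟨rfl, rfl, hx⟩ := hx
      obtain ⟨rfl, rfl, hy⟩ := hy
      have h1 := ha _ hx
      have h2 := hb _ hy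
      cases h : r21 e' d'' <;> cases h' : r12 d' e'' <;> simp [F, G, h, h', h1, h2, xor_xor']
  · obtain ⟨a, ha⟩ := h12.far e
    obtain ⟨b, hb⟩ := h21.near d
    refine ⟨NR d s a, NR e t b, isOpen_NR _ _ _, isOpen_NR _ _ _, ⟨rfl, rfl⟩, ⟨rfl, rfl⟩, ?_⟩
    rintro (⟨d', s'⟩ | ⟨d', s'⟩ | ⟨d', e', k', s'⟩) hx (⟨d'', s''⟩ | ⟨d'', s''⟩ | ⟨d'', e'', k'', s''⟩) hy
    · exact hx.elim
    · exact hx.elim
    · exact hx.elim
    · exact hy.elim
    · obtain ⟨rfl, rfl⟩ := hx
      obtain ⟨rfl, rfl⟩ := hy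
      rfl
    · obtain ⟨rfl, rfl⟩ := hx
      obtain ⟨rfl, rfl, hy⟩ := hy
      have := hb _ hy
      cases h : r22 d' e'' <;> simp [F, G, h, this, xor_xor']
    · exact hy.elim
    · obtain ⟨rfl, rfl, hx⟩ := hx
      obtain ⟨rfl, rfl⟩ := hy
      have := ha _ hx
      cases h : r22 e' d'' <;> simp [F, G, h, this, xor_xor']
    · obtain ⟨rfl, rfl, hx⟩ := hx
      obtain ⟨rfl, rfl, hy⟩ := hy
      have h1 := ha _ hx
      have h2 := hb _ hy
      cases h : r22 e' e'' <;> cases h' : r11 d' d'' <;> simp [F, G, h, h', h1, h2, xor_xor']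
  · obtain ⟨a, ha⟩ := h11.far e₁
    obtain ⟨b, hb⟩ := h12.far e₂
    refine ⟨NR d s (a ⊔ b), {mid e₁ e₂ l t}, isOpen_NR _ _ _, isOpen_mid _ _ _ _, ⟨rfl, rfl⟩, rfl, ?_⟩
    rintro (⟨d', s'⟩ | ⟨d', s'⟩ | ⟨d', e', k', s'⟩) hx y rfl
    · exact hx.elim
    · obtain ⟨rfl, rfl⟩ := hx
      rfl
    · obtain ⟨rfl, rfl, hx⟩ := hx
      have h1 := ha _ (le_sup_left.trans hx)
      have h2 := hb _ (le_sup_right.trans hx)
      cases h : r21 e' e₁ <;> cases h' : r22 e' e₂ <;> simp [F, G, h, h', h1, h2, xor_xor']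
  · obtain ⟨a, ha⟩ := h12.near d₁
    obtain ⟨b, hb⟩ := h22.near d₂
    refine ⟨{mid d₁ d₂ k s}, NL e t (a ⊔ b), isOpen_mid _ _ _ _, isOpen_NL _ _ _, rfl, ⟨rfl, rfl⟩, ?_⟩
    rintro x rfl (⟨d', s'⟩ | ⟨d', s'⟩ | ⟨d', e', k', s'⟩) hx
    · obtain ⟨rfl, rfl⟩ := hx
      rfl
    · exact hx.elim
    · obtain ⟨rfl, rfl, hx⟩ := hx
      have h1 := ha _ (le_sup_left.trans hx)
      have h2 := hb _ (le_sup_right.trans hx)
      cases h : r11 d₁ d' <;> cases h' : r21 d₂ d' <;> simp [F, G, h, h', h1, h2]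
  · obtain ⟨a, ha⟩ := h11.near d₁
    obtain ⟨b, hb⟩ := h21.near d₂
    refine ⟨{mid d₁ d₂ k s}, NR e t (a ⊔ b), isOpen_mid _ _ _ _, isOpen_NR _ _ _, rfl, ⟨rfl, rfl⟩, ?_⟩
    rintro x rfl (⟨d', s'⟩ | ⟨d', s'⟩ | ⟨d', e', k', s'⟩) hx
    · exact hx.elim
    · obtain ⟨rfl, rfl⟩ := hx
      rfl
    · obtain ⟨rfl, rfl, hx⟩ := hx
      have h1 := ha _ (le_sup_left.trans hx)
      have h2 := hb _ (le_sup_right.trans hx)
      cases h : r12 d₁ e' <;> cases h' : r22 d₂ e' <;> simp [F, G, h, h', h1, h2, xor_xor']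
  · refine ⟨{mid d₁ d₂ k s}, {mid e₁ e₂ l t}, isOpen_mid _ _ _ _, isOpen_mid _ _ _ _, rfl, rfl, ?_⟩
    rintro x rfl y rfl
    rfl

theorem prod_map (h11 : Rank r11) (h12 : Rank r12) (h21 : Rank r21) (h22 : Rank r22) (n : ℕ) :
    Maps (Prod.map inv inv : Pt D₁ D₂ × Pt E₁ E₂ → Pt D₁ D₂ × Pt E₁ E₂) (antipode n) := by
  obtain ⟨p⟩ : Nonempty (Sph n) := by
    have : (Metric.sphere (0 : EuclideanSpace ℝ (Fin (n + 1))) 1).Nonempty :=
      NormedSpace.sphere_nonempty.2 zero_le_one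
    exact this.to_subtype
  refine ⟨fun z => if F r11 r12 r21 r22 z.1 z.2 then p else -p, ?_, ?_⟩
  · have : IsLocallyConstant fun z : Pt D₁ D₂ × Pt E₁ E₂ => F r11 r12 r21 r22 z.1 z.2 := by
      rw [IsLocallyConstant.iff_exists_open]
      rintro ⟨x, y⟩
      obtain ⟨U, V, hU, hV, hx, hy, h⟩ := F_loc h11 h12 h21 h22 x y
      exact ⟨U ×ˢ V, hU.prod hV, ⟨hx, hy⟩, fun z hz => h z.1 hz.1 z.2 hz.2⟩
    exact (this.comp fun b : Bool => if b then p else -p).continuous
  · rintro ⟨x, y⟩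
    simp only [Prod.map_apply, F_inv, antipode]
    cases F r11 r12 r21 r22 x y <;> simp

end product

/-! ### The directed sets -/

/-- `κ k` is the cardinal `ℵ k` -/
noncomputable def κ : ℕ → Cardinal.{0}
  | 0 => ℵ₀
  | k + 1 => Order.succ (κ k)

theorem aleph0_le_κ : ∀ k, ℵ₀ ≤ κ k
  | 0 => le_rfl
  | k + 1 => (aleph0_le_κ k).trans (Order.le_succ _)

theorem κ_regular : ∀ k, (κ k).IsRegular
  | 0 => isRegular_aleph0
  | k + 1 => isRegular_succ (aleph0_le_κ k)

theorem κ_strictMono : StrictMono κ := strictMono_nat_of_lt_succ fun k => Order.lt_succ (κ k)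

/-- the well-ordered set of type `ω_k` -/
abbrev A (k : ℕ) : Type := (κ k).ord.ToType

instance (k : ℕ) : Nonempty (A k) := by
  rw [Ordinal.nonempty_toType_iff]
  exact (κ_regular k).ord_pos.ne'

instance (k : ℕ) : NoMaxOrder (A k) := Cardinal.noMaxOrder (aleph0_le_κ k)

theorem bounded {k : ℕ} {ι : Type} (hι : #ι < κ k) (f : ι → A k) : ∃ b, ∀ i, f i < b := by
  by_contra hcon
  push Not at hcon
  have h1 : IsCofinal (Set.range f) := by
    intro b
    obtain ⟨i, hi⟩ := hcon b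
    exact ⟨f i, ⟨i, rfl⟩, hi⟩
  have h2 := Order.cof_le h1
  rw [Ordinal.cof_toType, (κ_regular k).cof_ord] at h2
  exact absurd (h2.trans mk_range_le) (not_le.2 hι)

theorem bounded' {j k : ℕ} (hjk : j < k) (f : A j → A k) : ∃ b, ∀ i, f i ≤ b := by
  obtain ⟨b, hb⟩ := bounded (ι := A j) (k := k) (by
    rw [mk_ord_toType]
    exact κ_strictMono hjk) f
  exact ⟨b, fun i => (hb i).le⟩

theorem bounded₂ {i j k : ℕ} (hi : i < k) (hj : j < k) (f : A i × A j → A k) :
    ∃ b, ∀ x, f x ≤ b := by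
  choose g hg using fun a : A i => bounded' hj fun b => f (a, b)
  obtain ⟨b, hb⟩ := bounded' hi g
  exact ⟨b, fun x => (hg x.1 x.2).trans (hb x.1)⟩


theorem rank_of {D E L : Type} [Preorder D] [Preorder E] [LinearOrder L] [NoMaxOrder L]
    (p : D → L) (q : E → L) (hp : Monotone p) (hq : Monotone q)
    (hp' : ∀ l, ∃ d, p d = l) (hq' : ∀ l, ∃ e, q e = l) :
    Rank (fun d e => decide (p d ≤ q e)) where
  far := by
    intro e
    obtain ⟨l, hl⟩ := exists_gt (q e)
    obtain ⟨d₀, hd₀⟩ := hp' l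
    refine ⟨d₀, fun d hd => ?_⟩
    rw [decide_eq_false_iff_not, not_le]
    exact hl.trans_le (hd₀ ▸ hp hd)
  near := by
    intro d
    obtain ⟨e₀, he₀⟩ := hq' (p d)
    refine ⟨e₀, fun e he => ?_⟩
    rw [decide_eq_true_iff]
    exact he₀ ▸ hq he

/-- the first space does not map to a sphere -/
theorem conflict₁ (φ : A 0 × A 1 → A 2 × A 3) (ψ : A 2 × A 3 → A 0 × A 1) :
    ∃ d e, φ d ≤ e ∧ ψ e ≤ d := by
  obtain ⟨b, hb⟩ := bounded₂ (i := 0) (j := 1) (k := 2) (by norm_num) (by norm_num)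
    fun x => (φ x).1
  obtain ⟨c, hc⟩ := bounded₂ (i := 0) (j := 1) (k := 3) (by norm_num) (by norm_num)
    fun x => (φ x).2
  exact ⟨ψ (b, c), (b, c), ⟨hb _, hc _⟩, le_rfl⟩

/-- the second space does not map to a sphere -/
theorem conflict₂ (φ : A 0 × A 2 → A 1 × A 3) (ψ : A 1 × A 3 → A 0 × A 2) :
    ∃ d e, φ d ≤ e ∧ ψ e ≤ d := by
  obtain ⟨c, hc⟩ := bounded₂ (i := 0) (j := 2) (k := 3) (by norm_num) (by norm_num)
    fun x => (φ x).2
  obtain ⟨b, hb⟩ := bounded' (j := 1) (k := 2) (by norm_num) fun a => (ψ (a, c)).2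
  obtain ⟨a, ha⟩ := bounded' (j := 0) (k := 1) (by norm_num) fun m => (φ (m, b)).1
  exact ⟨((ψ (a, c)).1, b), (a, c), ⟨ha _, hc _⟩, ⟨le_rfl, hb _⟩⟩

/-- The first space of the counterexample. -/
abbrev X₁ : Type := Pt (A 0 × A 1) (A 2 × A 3)

/-- The second space of the counterexample. -/
abbrev X₂ : Type := Pt (A 0 × A 2) (A 1 × A 3)

theorem product_maps (n : ℕ) :
    Maps (Prod.map inv inv : X₁ × X₂ → X₁ × X₂) (antipode n) := by
  refine prod_map (r11 := fun d e => decide (d.1 ≤ e.1)) (r12 := fun d e => decide (d.2 ≤ e.1))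
    (r21 := fun d e => decide (d.1 ≤ e.2)) (r22 := fun d e => decide (d.2 ≤ e.2)) ?_ ?_ ?_ ?_ n
  · exact rank_of (fun d : A 0 × A 1 => d.1) (fun e : A 0 × A 2 => e.1) monotone_fst monotone_fst
      (fun l => ⟨(l, Classical.arbitrary _), rfl⟩) (fun l => ⟨(l, Classical.arbitrary _), rfl⟩)
  · exact rank_of (fun d : A 0 × A 1 => d.2) (fun e : A 1 × A 3 => e.1) monotone_snd monotone_fst
      (fun l => ⟨(Classical.arbitrary _, l), rfl⟩) (fun l => ⟨(l, Classical.arbitrary _), rfl⟩)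
  · exact rank_of (fun d : A 2 × A 3 => d.1) (fun e : A 0 × A 2 => e.2) monotone_fst monotone_snd
      (fun l => ⟨(l, Classical.arbitrary _), rfl⟩) (fun l => ⟨(Classical.arbitrary _, l), rfl⟩)
  · exact rank_of (fun d : A 2 × A 3 => d.2) (fun e : A 1 × A 3 => e.2) monotone_snd monotone_snd
      (fun l => ⟨(Classical.arbitrary _, l), rfl⟩) (fun l => ⟨(Classical.arbitrary _, l), rfl⟩)

/-- **Theorem.** The sphere `S²` (and every sphere `Sⁿ`, `n ≥ 0`) is not multiplicative: there are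
zero-dimensional Hausdorff spaces `X`, `Y` with continuous free involutions such that there is a
`Z₂`-map from `X × Y` to every sphere, but there is none from `X` or from `Y` to any sphere. -/
theorem result :
    ¬ Multiplicative (antipode 2) ∧
    (∀ n, ¬ Multiplicative (antipode n)) ∧
    ∃ (X Y : Type) (_ : TopologicalSpace X) (_ : TopologicalSpace Y) (ν : X → X) (μ : Y → Y),
      T2Space X ∧ IsTopologicalBasis {s : Set X | IsClopen s} ∧
      T2Space Y ∧ IsTopologicalBasis {s : Set Y | IsClopen s} ∧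
      FreeInvolution ν ∧ FreeInvolution μ ∧
      ∀ n, Maps (Prod.map ν μ) (antipode n) ∧ ¬ Maps ν (antipode n) ∧ ¬ Maps μ (antipode n) := by
  have h1 : ∀ n, ¬ Maps (inv : X₁ → X₁) (antipode n) := no_map conflict₁
  have h2 : ∀ n, ¬ Maps (inv : X₂ → X₂) (antipode n) := no_map conflict₂
  have h3 : ∀ n, ¬ Multiplicative (antipode n) := by
    intro n h
    rcases h X₁ X₂ inv inv freeInvolution_inv freeInvolution_inv (product_maps n) with h | h
    · exact h1 n h
    · exact h2 n h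
  exact ⟨h3 2, h3, X₁, X₂, inferInstance, inferInstance, inv, inv, t2, isTopologicalBasis_clopen,
    t2, isTopologicalBasis_clopen, freeInvolution_inv, freeInvolution_inv,
    fun n => ⟨product_maps n, h1 n, h2 n⟩⟩


end Pool.Agent.Results.MP_bd7361_gt.TwoSphereNotMultiplicative
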